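import Mathlib
import Pool.Agent.Y957.MC.Spec2

/-! Job MC2-PRODC, deterministic part. -/

set_option autoImplicit false

namespace Pool.Agent.Y259.MC

open Finset Pool.Agent.Y957.MC

/-- real averages over a box -/
noncomputable def ravg {k : ℕ} (M : Fin k → ℕ) (h : (Fin k → ℕ) → ℝ) : ℝ :=
  (1 / ((∏ i, M i : ℕ) : ℝ)) * ∑ m ∈ box M, h m

lemma bavg_real {k : ℕ} (M : Fin k → ℕ) (h : (Fin k → ℕ) → ℝ) :
    bavg M (fun m => ((h m : ℝ) : ℂ)) = ((ravg M h : ℝ) : ℂ) := by
  unfold bavg ravg
  push_cast
  rfl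

lemma ravg_add {k : ℕ} (M : Fin k → ℕ) (h h' : (Fin k → ℕ) → ℝ) :
    ravg M (fun m => h m + h' m) = ravg M h + ravg M h' := by
  unfold ravg
  rw [sum_add_distrib]
  ring

lemma ravg_const_mul {k : ℕ} (M : Fin k → ℕ) (c : ℝ) (h : (Fin k → ℕ) → ℝ) :
    ravg M (fun m => c * h m) = c * ravg M h := by
  unfold ravg
  rw [← mul_sum]
  ring

lemma ravg_one {k : ℕ} {M : Fin k → ℕ} (hM : ∀ l, 1 ≤ M l) : ravg M (fun _ => 1) = 1 := by
  unfold ravg Pool.Agent.Y957.MC.box
  rw [sum_const, Fintype.card_piFinset]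
  simp only [Nat.card_Icc, Nat.add_sub_cancel, nsmul_eq_mul, mul_one]
  have : ((∏ i, M i : ℕ) : ℝ) ≠ 0 := by
    have : ∏ i, M i ≠ 0 := prod_ne_zero_iff.2 fun i _ => by have := hM i; omega
    exact_mod_cast this
  field_simp

lemma mem_box {k : ℕ} {M m : Fin k → ℕ} : m ∈ box M ↔ ∀ l, 1 ≤ m l ∧ m l ≤ M l := by
  unfold Pool.Agent.Y957.MC.box
  rw [Fintype.mem_piFinset]
  simp only [mem_Icc]

/-- one coordinate can be replaced by one -/
lemma sum_update {k : ℕ} (M : Fin k → ℕ) (l : Fin k) (h : (Fin k → ℕ) → ℝ)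
    (hh : ∀ m t, h (Function.update m l t) = h m) :
    ∑ m ∈ box M, h m = (M l : ℝ) * ∑ m ∈ box (Function.update M l 1), h m := by
  have h1 : ∑ m ∈ box M, h m = ∑ y ∈ Icc 1 (M l) ×ˢ box (Function.update M l 1), h y.2 := by
    refine sum_nbij' (fun m => (m l, Function.update m l 1))
      (fun y => Function.update y.2 l y.1) ?_ ?_ ?_ ?_ ?_
    · intro m hm
      rw [mem_box] at hm
      rw [mem_product, mem_Icc, mem_box]
      refine ⟨hm l, fun r => ?_⟩
      by_cases hr : r = l
      · subst hr
        simp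
      · simp only [Function.update_of_ne hr]
        exact hm r
    · intro y hy
      rw [mem_product, mem_Icc, mem_box] at hy
      rw [mem_box]
      intro r
      by_cases hr : r = l
      · subst hr
        simp only [Function.update_self]
        exact hy.1
      · have := hy.2 r
        simp only [Function.update_of_ne hr] at this ⊢
        exact this
    · intro m _
      simp
    · intro y hy
      rw [mem_product, mem_Icc, mem_box] at hy
      have h2 := hy.2 l
      rw [Function.update_self] at h2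
      have h3 : y.2 l = 1 := by omega
      ext1
      · simp
      · simp only [Function.update_idem]
        rw [← h3, Function.update_eq_self]
    · intro m _
      exact (hh m 1).symm
  rw [h1, sum_product]
  simp only
  rw [sum_const, Nat.card_Icc, nsmul_eq_mul, Nat.add_sub_cancel]

lemma ravg_update {k : ℕ} {M : Fin k → ℕ} (hM : ∀ l, 1 ≤ M l) (l : Fin k)
    (h : (Fin k → ℕ) → ℝ) (hh : ∀ m t, h (Function.update m l t) = h m) :
    ravg M h = ravg (Function.update M l 1) h := by
  unfold ravg
  rw [sum_update M l h hh]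
  have h1 : ∏ i, M i = M l * ∏ i, (Function.update M l 1) i := by
    rw [← mul_prod_erase univ _ (mem_univ l), ← mul_prod_erase univ (Function.update M l 1)
      (mem_univ l), Function.update_self, one_mul]
    congr 1
    refine prod_congr rfl fun r hr => ?_
    rw [Function.update_of_ne (ne_of_mem_erase hr)]
  rw [h1]
  have h2 : (M l : ℝ) ≠ 0 := by
    have := hM l
    have : M l ≠ 0 := by omega
    exact_mod_cast this
  have h3 : ((∏ i, (Function.update M l 1) i : ℕ) : ℝ) ≠ 0 := by
    have : ∏ i, (Function.update M l 1) i ≠ 0 := prod_ne_zero_iff.2 fun i _ => by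
      by_cases hi : i = l
      · subst hi
        simp
      · rw [Function.update_of_ne hi]
        have := hM i
        omega
    exact_mod_cast this
  push_cast [Nat.cast_mul] at h3 ⊢
  field_simp

/-- `h` depends only on the coordinates in `V` -/
def Dep {k : ℕ} (V : Finset (Fin k)) (h : (Fin k → ℕ) → ℝ) : Prop :=
  ∀ m m', (∀ i ∈ V, m i = m' i) → h m = h m'

lemma ravg_restrict {k : ℕ} {V : Finset (Fin k)} {h : (Fin k → ℕ) → ℝ} (hV : Dep V h)
    {M : Fin k → ℕ} (hM : ∀ l, 1 ≤ M l) (W : Finset (Fin k)) (hW : Disjoint W V) :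
    ravg M h = ravg (fun l => if l ∈ W then 1 else M l) h := by
  induction W using Finset.induction_on with
  | empty => simp
  | insert a W ha ih =>
    have h1 : Disjoint W V := disjoint_of_subset_left (subset_insert a W) hW
    rw [ih h1]
    have h2 : ∀ l, 1 ≤ (fun l => if l ∈ W then 1 else M l) l := by
      intro l
      simp only
      split_ifs
      · exact le_rfl
      · exact hM l
    have h3 : a ∉ V := disjoint_left.1 hW (mem_insert_self a W)
    rw [ravg_update h2 a h]
    · congr 1
      ext l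
      by_cases hl : l = a
      · subst hl
        simp
      · rw [Function.update_of_ne hl]
        simp [hl]
    · intro m t
      apply hV
      intro i hi
      rw [Function.update_of_ne]
      rintro rfl
      exact h3 hi

lemma ravg_agree {k : ℕ} {V : Finset (Fin k)} {h : (Fin k → ℕ) → ℝ} (hV : Dep V h)
    {M M' : Fin k → ℕ} (hM : ∀ l, 1 ≤ M l) (hM' : ∀ l, 1 ≤ M' l) (hag : ∀ l ∈ V, M l = M' l) :
    ravg M h = ravg M' h := by
  rw [ravg_restrict hV hM Vᶜ disjoint_compl_left, ravg_restrict hV hM' Vᶜ disjoint_compl_left]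
  congr 1
  ext l
  by_cases hl : l ∈ V
  · simp [hl, hag l hl]
  · simp [hl]

section det

variable {k n : ℕ} {S : Fin n → Finset (Fin k)} {p : Fin n → (Fin k → ℕ) → ℝ} {γ : Fin n → ℝ}

lemma dep_prod {V : Finset (Fin k)} (hloc : ∀ j, Dep (S j) (p j)) {A : Finset (Fin n)}
    (hA : ∀ j ∈ A, S j ⊆ V) : Dep V (fun m => ∏ j ∈ A, p j m) := by
  intro m m' h
  refine prod_congr rfl fun j hj => ?_
  exact hloc j m m' fun i hi => h i (hA j hj hi)

/-- telescoping -/
lemma tele (hloc : ∀ j, Dep (S j) (p j))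
    (hTZ : ∀ j, ∀ i ∈ S j, ∀ J' : Finset (Fin n), j ∉ J' → ∀ ε : ℝ, 0 < ε → ∃ N₀ : ℕ,
      ∀ M : Fin k → ℕ, (∀ l, N₀ ≤ M l) → (∀ l, M l ≤ M i) →
      |ravg M (fun m => (∏ j' ∈ J', p j' m) * (p j m - γ j))| ≤ ε)
    (V : Finset (Fin k)) (i : Fin k) (A J : Finset (Fin n)) (hA : ∀ j ∈ A, S j ⊆ V ∧ i ∈ S j)
    (hJ : ∀ j ∈ J, S j ⊆ V) (hd : Disjoint A J) :
    ∀ ε : ℝ, 0 < ε → ∃ N₀ : ℕ, ∀ M : Fin k → ℕ, (∀ l, N₀ ≤ M l) → (∀ l ∈ V, M l ≤ M i) →
      |ravg M (fun m => (∏ j ∈ A, p j m) * ∏ j ∈ J, p j m) -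
        (∏ j ∈ A, γ j) * ravg M (fun m => ∏ j ∈ J, p j m)| ≤ ε := by
  classical
  induction A using Finset.induction_on with
  | empty =>
    intro ε hε
    refine ⟨0, fun M _ _ => ?_⟩
    simp only [prod_empty, one_mul, sub_self, abs_zero]
    exact hε.le
  | insert a A ha ih =>
    intro ε hε
    have hd' : Disjoint A J := disjoint_of_subset_left (subset_insert a A) hd
    have haJ : a ∉ J := disjoint_left.1 hd (mem_insert_self a A)
    have hAA : ∀ j ∈ A, S j ⊆ V ∧ i ∈ S j := fun j hj => hA j (mem_insert_of_mem hj)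
    obtain ⟨haV, hai⟩ := hA a (mem_insert_self a A)
    have hg : 0 < 1 + |γ a| := by positivity
    obtain ⟨N1, h1⟩ := ih hAA hd' (ε / (2 * (1 + |γ a|))) (by positivity)
    obtain ⟨N2, h2⟩ := hTZ a i hai (A ∪ J) (by
      rw [mem_union]
      rintro (h | h)
      · exact ha h
      · exact haJ h) (ε / 2) (by positivity)
    refine ⟨max (max N1 N2) 1, fun M hM hmax => ?_⟩
    have k1 := h1 M (fun l => ((le_max_left _ _).trans (le_max_left _ _)).trans (hM l)) hmax
    have hM1 : ∀ l, 1 ≤ M l := fun l => (le_max_right _ _).trans (hM l)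
    have hM2 : ∀ l, N2 ≤ M l := fun l =>
      ((le_max_right _ _).trans (le_max_left _ _)).trans (hM l)
    have k2 := h2 (fun l => min (M l) (M i)) (fun l => le_min (hM2 l) (hM2 i))
      (fun l => by
        show min (M l) (M i) ≤ min (M i) (M i)
        rw [min_self]
        exact min_le_right _ _)
    have hW : ∀ m, (∏ j' ∈ A ∪ J, p j' m) = (∏ j ∈ A, p j m) * ∏ j ∈ J, p j m :=
      fun m => prod_union hd'
    have hdep : Dep V (fun m => (∏ j' ∈ A ∪ J, p j' m) * (p a m - γ a)) := by
      intro m m' h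
      have e1 : (∏ j' ∈ A ∪ J, p j' m) = ∏ j' ∈ A ∪ J, p j' m' :=
        dep_prod (V := V) hloc (fun j hj => by
          rcases mem_union.1 hj with hj | hj
          · exact (hAA j hj).1
          · exact hJ j hj) m m' h
      have e2 : p a m = p a m' := hloc a m m' fun i hi => h i (haV hi)
      simp only [e1, e2]
    have k3 : ravg (fun l => min (M l) (M i)) (fun m => (∏ j' ∈ A ∪ J, p j' m) * (p a m - γ a))
        = ravg M (fun m => (∏ j' ∈ A ∪ J, p j' m) * (p a m - γ a)) :=
      ravg_agree hdep (fun l => le_min (hM1 l) (hM1 i)) hM1 fun l hl => min_eq_left (hmax l hl)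
    rw [k3] at k2
    have e3 : ravg M (fun m => (∏ j ∈ insert a A, p j m) * ∏ j ∈ J, p j m)
        = ravg M (fun m => (∏ j' ∈ A ∪ J, p j' m) * (p a m - γ a))
          + γ a * ravg M (fun m => (∏ j ∈ A, p j m) * ∏ j ∈ J, p j m) := by
      rw [← ravg_const_mul, ← ravg_add]
      congr 1
      ext m
      rw [prod_insert ha, hW]
      ring
    rw [e3, prod_insert ha]
    have e4 : ravg M (fun m => (∏ j' ∈ A ∪ J, p j' m) * (p a m - γ a))
          + γ a * ravg M (fun m => (∏ j ∈ A, p j m) * ∏ j ∈ J, p j m)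
          - (γ a * ∏ j ∈ A, γ j) * ravg M (fun m => ∏ j ∈ J, p j m)
        = ravg M (fun m => (∏ j' ∈ A ∪ J, p j' m) * (p a m - γ a))
          + γ a * (ravg M (fun m => (∏ j ∈ A, p j m) * ∏ j ∈ J, p j m) -
        (∏ j ∈ A, γ j) * ravg M (fun m => ∏ j ∈ J, p j m)) := by ring
    rw [e4]
    refine (abs_add_le _ _).trans ?_
    rw [abs_mul]
    have k4 : |γ a| * |ravg M (fun m => (∏ j ∈ A, p j m) * ∏ j ∈ J, p j m) -
        (∏ j ∈ A, γ j) * ravg M (fun m => ∏ j ∈ J, p j m)| ≤ (1 + |γ a|) *
          (ε / (2 * (1 + |γ a|))) :=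
      mul_le_mul (by linarith) k1 (abs_nonneg _) hg.le
    have k5 : (1 + |γ a|) * (ε / (2 * (1 + |γ a|))) = ε / 2 := by
      field_simp
    linarith

theorem det (hne : ∀ j, (S j).Nonempty) (hloc : ∀ j, Dep (S j) (p j))
    (hTZ : ∀ j, ∀ i ∈ S j, ∀ J' : Finset (Fin n), j ∉ J' → ∀ ε : ℝ, 0 < ε → ∃ N₀ : ℕ,
      ∀ M : Fin k → ℕ, (∀ l, N₀ ≤ M l) → (∀ l, M l ≤ M i) →
      |ravg M (fun m => (∏ j' ∈ J', p j' m) * (p j m - γ j))| ≤ ε) :
    ∀ ε : ℝ, 0 < ε → ∃ N₀ : ℕ, ∀ M : Fin k → ℕ, (∀ l, N₀ ≤ M l) →
      |ravg M (fun m => ∏ j, p j m) - ∏ j, γ j| ≤ ε := by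
  classical
  have main : ∀ V : Finset (Fin k), ∀ ε : ℝ, 0 < ε → ∃ N₀ : ℕ, ∀ M : Fin k → ℕ,
      (∀ l, N₀ ≤ M l) → |ravg M (fun m => ∏ j ∈ univ.filter (fun j => S j ⊆ V), p j m) -
        ∏ j ∈ univ.filter (fun j => S j ⊆ V), γ j| ≤ ε := by
    intro V
    induction V using Finset.strongInduction with
    | H V ih =>
      intro ε hε
      rcases V.eq_empty_or_nonempty with rfl | hV
      · refine ⟨1, fun M hM => ?_⟩
        have h1 : univ.filter (fun j => S j ⊆ ∅) = ∅ := by
          apply filter_eq_empty_iff.2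
          intro j _ hj
          obtain ⟨i, hi⟩ := hne j
          exact absurd (hj hi) (notMem_empty i)
        rw [h1]
        simp only [prod_empty]
        rw [ravg_one hM, sub_self, abs_zero]
        exact hε.le
      · have key : ∀ i, ∃ N₀ : ℕ, i ∈ V → ∀ M : Fin k → ℕ, (∀ l, N₀ ≤ M l) →
            (∀ l ∈ V, M l ≤ M i) →
            |ravg M (fun m => ∏ j ∈ univ.filter (fun j => S j ⊆ V), p j m) -
              ∏ j ∈ univ.filter (fun j => S j ⊆ V), γ j| ≤ ε := by
          intro i
          by_cases hi : i ∈ V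
          · obtain ⟨A, hA⟩ : ∃ A, A = univ.filter (fun j => S j ⊆ V ∧ i ∈ S j) := ⟨_, rfl⟩
            obtain ⟨J, hJ⟩ : ∃ J, J = univ.filter (fun j => S j ⊆ V.erase i) := ⟨_, rfl⟩
            have hd : Disjoint A J := by
              rw [disjoint_left]
              intro j hjA hjJ
              rw [hA, mem_filter] at hjA
              rw [hJ, mem_filter] at hjJ
              exact notMem_erase i V (hjJ.2 hjA.2.2)
            have hu : univ.filter (fun j => S j ⊆ V) = A ∪ J := by
              ext j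
              rw [hA, hJ, mem_union, mem_filter, mem_filter, mem_filter]
              simp only [mem_univ, true_and]
              constructor
              · intro h
                by_cases hij : i ∈ S j
                · exact Or.inl ⟨h, hij⟩
                · right
                  intro r hr
                  rw [mem_erase]
                  refine ⟨?_, h hr⟩
                  rintro rfl
                  exact hij hr
              · rintro (h | h)
                · exact h.1
                · exact h.trans (erase_subset i V)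
            have hg : 0 < 1 + |∏ j ∈ A, γ j| := by positivity
            obtain ⟨N1, h1⟩ := tele hloc hTZ V i A J (fun j hj => by
                rw [hA, mem_filter] at hj
                exact hj.2) (fun j hj => by
                rw [hJ, mem_filter] at hj
                exact hj.2.trans (erase_subset i V)) hd (ε / 2) (by positivity)
            obtain ⟨N2, h2⟩ := ih (V.erase i) (erase_ssubset hi)
              (ε / (2 * (1 + |∏ j ∈ A, γ j|))) (by positivity)
            refine ⟨max N1 N2, fun _ M hM hmax => ?_⟩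
            have k1 := h1 M (fun l => (le_max_left _ _).trans (hM l)) hmax
            have k2 := h2 M (fun l => (le_max_right _ _).trans (hM l))
            rw [← hJ] at k2
            rw [hu, prod_union hd]
            have e1 : (fun m => ∏ j ∈ A ∪ J, p j m)
                = fun m => (∏ j ∈ A, p j m) * ∏ j ∈ J, p j m := by
              ext m
              exact prod_union hd
            rw [e1]
            have e2 : ravg M (fun m => (∏ j ∈ A, p j m) * ∏ j ∈ J, p j m)
                - (∏ j ∈ A, γ j) * ∏ j ∈ J, γ j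
                = (ravg M (fun m => (∏ j ∈ A, p j m) * ∏ j ∈ J, p j m) -
                  (∏ j ∈ A, γ j) * ravg M (fun m => ∏ j ∈ J, p j m))
                  + (∏ j ∈ A, γ j) * (ravg M (fun m => ∏ j ∈ J, p j m) - ∏ j ∈ J, γ j) := by
              ring
            rw [e2]
            refine (abs_add_le _ _).trans ?_
            rw [abs_mul]
            have k4 : |∏ j ∈ A, γ j| * |ravg M (fun m => ∏ j ∈ J, p j m) - ∏ j ∈ J, γ j|
                ≤ (1 + |∏ j ∈ A, γ j|) * (ε / (2 * (1 + |∏ j ∈ A, γ j|))) :=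
              mul_le_mul (by linarith) k2 (abs_nonneg _) hg.le
            have k5 : (1 + |∏ j ∈ A, γ j|) * (ε / (2 * (1 + |∏ j ∈ A, γ j|))) = ε / 2 := by
              field_simp
            linarith
          · exact ⟨0, fun h => absurd h hi⟩
        choose N hN using key
        refine ⟨V.sup N, fun M hM => ?_⟩
        obtain ⟨i, hi, hmax⟩ := exists_max_image V M hV
        exact hN i hi M (fun l => (le_sup hi).trans (hM l)) hmax
  intro ε hε
  obtain ⟨N₀, h⟩ := main univ ε hε
  refine ⟨N₀, fun M hM => ?_⟩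
  have h1 := h M hM
  have h2 : univ.filter (fun j => S j ⊆ univ) = univ := by
    apply filter_true_of_mem
    intro j _
    exact subset_univ _
  rw [h2] at h1
  exact h1

end det

end Pool.Agent.Y259.MC
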