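import Mathlib
import Pool.Agent.Y957.MC.Spec2
import Pool.Agent.Y259.MC.ProdDet

/-! Job MC2-PRODC. -/

set_option autoImplicit false

namespace Pool.Agent.Y259.MC

open MeasureTheory Filter Finset Pool.Agent.Y957.MC

universe u

lemma measTZ {Y : Type*} [MeasurableSpace Y] {k : ℕ} (i : Fin k) (h : Y → (Fin k → ℕ) → ℂ)
    (hm : ∀ M, Measurable (fun y => h y M)) : MeasurableSet {y | TZ i (h y)} := by
  have h1 : {y | TZ i (h y)} = ⋂ q : ℕ, ⋃ N₀ : ℕ, ⋂ M : Fin k → ℕ,
      {y | (∀ l, N₀ ≤ M l) → (∀ l, M l ≤ M i) → ‖h y M‖ ≤ 1 / ((q : ℝ) + 1)} := by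
    ext y
    simp only [Set.mem_ofPred_eq, Set.mem_iInter, Set.mem_iUnion]
    constructor
    · intro H q
      obtain ⟨N₀, h0⟩ := H (1 / ((q : ℝ) + 1)) (by positivity)
      exact ⟨N₀, h0⟩
    · intro H ε hε
      obtain ⟨q, hq⟩ := exists_nat_one_div_lt hε
      obtain ⟨N₀, h0⟩ := H q
      exact ⟨N₀, fun M a b => (h0 M a b).trans hq.le⟩
  rw [h1]
  refine MeasurableSet.iInter fun q => MeasurableSet.iUnion fun N₀ => MeasurableSet.iInter
    fun M => ?_
  by_cases ha : (∀ l, N₀ ≤ M l) ∧ (∀ l, M l ≤ M i)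
  · have : {y | (∀ l, N₀ ≤ M l) → (∀ l, M l ≤ M i) → ‖h y M‖ ≤ 1 / ((q : ℝ) + 1)}
        = {y | ‖h y M‖ ≤ 1 / ((q : ℝ) + 1)} := by
      ext y
      simp only [Set.mem_ofPred_eq]
      exact ⟨fun H => H ha.1 ha.2, fun H _ _ => H⟩
    rw [this]
    exact measurableSet_le (hm M).norm measurable_const
  · have : {y | (∀ l, N₀ ≤ M l) → (∀ l, M l ≤ M i) → ‖h y M‖ ≤ 1 / ((q : ℝ) + 1)}
        = Set.univ := by
      ext y
      simp only [Set.mem_ofPred_eq, Set.mem_univ, iff_true]
      intro a b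
      exact absurd ⟨a, b⟩ ha
    rw [this]
    exact MeasurableSet.univ

/-- Fubini for one coordinate -/
lemma slice {n : ℕ} (ν : Measure ℝ) [SigmaFinite ν] (j : Fin n) (P : ℝ → (Fin n → ℝ) → Prop)
    (hP : ∀ t a a', (∀ l, l ≠ j → a l = a' l) → P t a → P t a')
    (hmeas : MeasurableSet {a : Fin n → ℝ | P (a j) a}) (h : ∀ a, ∀ᵐ t ∂ν, P t a) :
    ∀ᵐ a ∂(Measure.pi fun _ : Fin n => ν), P (a j) a := by
  cases n with
  | zero => exact j.elim0
  | succ n =>
    have hmp := measurePreserving_piFinSuccAbove (fun _ : Fin (n + 1) => ν) j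
    let e := MeasurableEquiv.piFinSuccAbove (fun _ : Fin (n + 1) => ℝ) j
    have hej : ∀ y : ℝ × (Fin n → ℝ), (e.symm y) j = y.1 := by
      intro y
      simp [e]
    have heo : ∀ (y : ℝ × (Fin n → ℝ)) (l : Fin n), (e.symm y) (j.succAbove l) = y.2 l := by
      intro y l
      simp [e]
    have hset : MeasurableSet {y : ℝ × (Fin n → ℝ) | P y.1 (e.symm y)} := by
      have : {y : ℝ × (Fin n → ℝ) | P y.1 (e.symm y)} = e.symm ⁻¹' {a | P (a j) a} := by
        ext y
        simp only [Set.mem_ofPred_eq, Set.mem_preimage, hej]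
      rw [this]
      exact e.symm.measurable hmeas
    have key : ∀ᵐ a' : Fin n → ℝ ∂(Measure.pi fun _ => ν), ∀ᵐ t : ℝ ∂ν, P t (e.symm (t, a')) := by
      refine Eventually.of_forall fun a' => ?_
      filter_upwards [h (e.symm (0, a'))] with t ht
      refine hP t _ _ ?_ ht
      intro l hl
      obtain ⟨l', rfl⟩ := Fin.exists_succAbove_eq hl
      rw [heo, heo]
    have hprod : ∀ᵐ y : ℝ × (Fin n → ℝ) ∂(ν.prod (Measure.pi fun _ => ν)),
        P y.1 (e.symm y) := by
      rw [Measure.ae_prod_iff_ae_ae hset]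
      exact (Measure.ae_ae_comm hset).2 key
    have h3 := hmp.quasiMeasurePreserving.ae hprod
    filter_upwards [h3] with a ha
    have e1 : e.symm (e a) = a := e.symm_apply_apply a
    have e2 : (e a).1 = a j := by
      rw [← hej (e a), e1]
    have ha' : P (e a).1 (e.symm (e a)) := ha
    rw [e1, e2] at ha'
    exact ha'

lemma TZ_smul {k : ℕ} {i : Fin k} {h : (Fin k → ℕ) → ℂ} (hh : TZ i h) (c : ℂ) :
    TZ i (fun M => c * h M) := by
  intro ε hε
  have hc : 0 < 1 + ‖c‖ := by positivity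
  obtain ⟨N₀, h0⟩ := hh (ε / (1 + ‖c‖)) (by positivity)
  refine ⟨N₀, fun M a b => ?_⟩
  rw [norm_mul]
  have := h0 M a b
  calc ‖c‖ * ‖h M‖ ≤ (1 + ‖c‖) * (ε / (1 + ‖c‖)) :=
        mul_le_mul (by linarith) this (norm_nonneg _) hc.le
    _ = ε := by field_simp

/-- the array whose box averages have to be small -/
noncomputable def arr {X : Type u} {k n : ℕ} (φ : Fin n → X → ℝ → (Fin k → ℕ) → ℝ)
    (g : Fin n → X → ℝ) (j : Fin n) (J' : Finset (Fin n)) (x : X) (a : Fin n → ℝ) (t : ℝ)
    (m : Fin k → ℕ) : ℝ := (∏ j' ∈ J', φ j' x (a j') m) * (φ j x t m - g j x)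

theorem prodc : S_PRODC.{u} := by
  classical
  intro X _ μ _ k n ν _ S φ g hne hloc hφ hg hφC hgC h
  obtain ⟨C₀, hC₀⟩ := hφC
  obtain ⟨C, hCdef⟩ : ∃ C : ℝ, C = max C₀ 1 := ⟨_, rfl⟩
  have hC1 : 1 ≤ C := hCdef ▸ le_max_right _ _
  have hC : ∀ j x a m, |φ j x a m| ≤ C := fun j x a m =>
    (hC₀ j x a m).trans (hCdef ▸ le_max_left _ _)
  have hCn : 0 < C ^ n := by positivity
  -- measurability
  have hmeas : ∀ (j : Fin n) (J' : Finset (Fin n)) (M : Fin k → ℕ),
      Measurable (fun y : X × (Fin n → ℝ) => bavg M (fun m => ((arr φ g j J' y.1 y.2 (y.2 j) m : ℝ)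
        : ℂ))) := by
    intro j J' M
    unfold bavg
    apply Measurable.const_mul
    apply Finset.measurable_sum
    intro m _
    apply Complex.measurable_ofReal.comp
    unfold arr
    apply Measurable.mul
    · apply Finset.measurable_prod
      intro j' _
      exact (hφ j' m).comp (measurable_fst.prodMk ((measurable_pi_apply j').comp measurable_snd))
    · apply Measurable.sub
      · exact (hφ j m).comp (measurable_fst.prodMk ((measurable_pi_apply j).comp measurable_snd))
      · exact (hg j).comp measurable_fst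
  have hmeasx : ∀ (x : X) (j : Fin n) (J' : Finset (Fin n)) (M : Fin k → ℕ),
      Measurable (fun a : Fin n → ℝ => bavg M (fun m => ((arr φ g j J' x a (a j) m : ℝ) : ℂ))) := by
    intro x j J' M
    unfold bavg
    apply Measurable.const_mul
    apply Finset.measurable_sum
    intro m _
    apply Complex.measurable_ofReal.comp
    unfold arr
    apply Measurable.mul
    · apply Finset.measurable_prod
      intro j' _
      exact (hφ j' m).comp (measurable_const.prodMk (measurable_pi_apply j'))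
    · apply Measurable.sub
      · exact (hφ j m).comp (measurable_const.prodMk (measurable_pi_apply j))
      · exact measurable_const
  have h1 : ∀ᵐ x ∂μ, ∀ j, ∀ i ∈ S j, ∀ B : (Fin k → ℕ) → ℂ, (∀ m, ‖B m‖ ≤ 1) → ∀ᵐ a : ℝ ∂ν,
      TZ i (fun M => bavg M (fun m => B m * (((φ j x a m - g j x : ℝ)) : ℂ))) := by
    rw [ae_all_iff]
    intro j
    rw [ae_all_iff]
    intro i
    by_cases hi : i ∈ S j
    · filter_upwards [h j i hi] with x hx _ using hx
    · exact Eventually.of_forall fun x hh => absurd hh hi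
  have h2 : ∀ᵐ x ∂μ, ∀ᵐ a : Fin n → ℝ ∂(Measure.pi fun _ => ν), ∀ j, ∀ i ∈ S j,
      ∀ J' : Finset (Fin n), j ∉ J' →
      TZ i (fun M => bavg M (fun m => ((arr φ g j J' x a (a j) m : ℝ) : ℂ))) := by
    filter_upwards [h1] with x hx
    rw [ae_all_iff]
    intro j
    rw [ae_all_iff]
    intro i
    by_cases hi : i ∈ S j
    swap
    · exact Eventually.of_forall fun a hh => absurd hh hi
    have : ∀ᵐ a : Fin n → ℝ ∂(Measure.pi fun _ => ν), ∀ J' : Finset (Fin n), j ∉ J' →
        TZ i (fun M => bavg M (fun m => ((arr φ g j J' x a (a j) m : ℝ) : ℂ))) := by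
      rw [ae_all_iff]
      intro J'
      by_cases hj : j ∈ J'
      · exact Eventually.of_forall fun a hh => absurd hj hh
      have h3 := slice ν j (fun t a => TZ i (fun M => bavg M (fun m =>
          ((arr φ g j J' x a t m : ℝ) : ℂ)))) ?_ ?_ ?_
      · filter_upwards [h3] with a ha _ using ha
      · intro t a a' haa H
        have e : ∀ m, arr φ g j J' x a' t m = arr φ g j J' x a t m := by
          intro m
          unfold arr
          congr 1
          refine prod_congr rfl fun j' hj' => ?_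
          rw [haa j' (by
            rintro rfl
            exact hj hj')]
        simp only [e]
        exact H
      · exact measTZ i (fun (a : Fin n → ℝ) M => bavg M (fun m =>
          ((arr φ g j J' x a (a j) m : ℝ) : ℂ))) (fun M => hmeasx x j J' M)
      · intro a
        have hB : ∀ m, ‖(((∏ j' ∈ J', φ j' x (a j') m) / C ^ n : ℝ) : ℂ)‖ ≤ 1 := by
          intro m
          rw [Complex.norm_real, Real.norm_eq_abs, abs_div, abs_of_pos hCn, abs_prod,
            div_le_one hCn]
          calc ∏ j' ∈ J', |φ j' x (a j') m| ≤ ∏ _j' ∈ J', C :=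
                prod_le_prod (fun _ _ => abs_nonneg _) (fun j' _ => hC j' x (a j') m)
            _ = C ^ J'.card := by simp
            _ ≤ C ^ n := pow_le_pow_right₀ hC1 (by
                have := card_le_univ J'
                simpa using this)
        filter_upwards [hx j i hi _ hB] with t ht
        have h4 := TZ_smul ht ((C ^ n : ℝ) : ℂ)
        have e : (fun M : Fin k → ℕ => ((C ^ n : ℝ) : ℂ) * bavg M (fun m =>
            (((∏ j' ∈ J', φ j' x (a j') m) / C ^ n : ℝ) : ℂ) * (((φ j x t m - g j x : ℝ)) : ℂ)))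
            = fun M => bavg M (fun m => ((arr φ g j J' x a t m : ℝ) : ℂ)) := by
          ext M
          unfold bavg
          rw [mul_left_comm, mul_sum]
          congr 1
          refine sum_congr rfl fun m _ => ?_
          rw [← Complex.ofReal_mul, ← Complex.ofReal_mul]
          congr 1
          unfold arr
          rw [← mul_assoc, mul_div_cancel₀ _ hCn.ne']
        rw [e] at h4
        exact h4
    filter_upwards [this] with a ha _ using ha
  have hset : MeasurableSet {y : X × (Fin n → ℝ) | ∀ j, ∀ i ∈ S j,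
      ∀ J' : Finset (Fin n), j ∉ J' →
      TZ i (fun M => bavg M (fun m => ((arr φ g j J' y.1 y.2 (y.2 j) m : ℝ) : ℂ)))} := by
    have e : {y : X × (Fin n → ℝ) | ∀ j, ∀ i ∈ S j, ∀ J' : Finset (Fin n), j ∉ J' →
        TZ i (fun M => bavg M (fun m => ((arr φ g j J' y.1 y.2 (y.2 j) m : ℝ) : ℂ)))}
        = ⋂ j, ⋂ i, ⋂ J' : Finset (Fin n), {y : X × (Fin n → ℝ) | i ∈ S j → j ∉ J' →
        TZ i (fun M => bavg M (fun m => ((arr φ g j J' y.1 y.2 (y.2 j) m : ℝ) : ℂ)))} := by
      ext y
      simp only [Set.mem_ofPred_eq, Set.mem_iInter]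
      exact ⟨fun H j i J' a b => H j i a J' b, fun H j i a J' b => H j i J' a b⟩
    rw [e]
    refine MeasurableSet.iInter fun j => MeasurableSet.iInter fun i => MeasurableSet.iInter
      fun J' => ?_
    by_cases hc : i ∈ S j ∧ j ∉ J'
    · have e2 : {y : X × (Fin n → ℝ) | i ∈ S j → j ∉ J' →
          TZ i (fun M => bavg M (fun m => ((arr φ g j J' y.1 y.2 (y.2 j) m : ℝ) : ℂ)))}
          = {y : X × (Fin n → ℝ) |
          TZ i (fun M => bavg M (fun m => ((arr φ g j J' y.1 y.2 (y.2 j) m : ℝ) : ℂ)))} := by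
        ext y
        simp only [Set.mem_ofPred_eq]
        exact ⟨fun H => H hc.1 hc.2, fun H _ _ => H⟩
      rw [e2]
      exact measTZ i (fun (y : X × (Fin n → ℝ)) M => bavg M (fun m =>
          ((arr φ g j J' y.1 y.2 (y.2 j) m : ℝ) : ℂ))) (hmeas j J')
    · have e2 : {y : X × (Fin n → ℝ) | i ∈ S j → j ∉ J' →
          TZ i (fun M => bavg M (fun m => ((arr φ g j J' y.1 y.2 (y.2 j) m : ℝ) : ℂ)))}
          = Set.univ := by
        ext y
        simp only [Set.mem_ofPred_eq, Set.mem_univ, iff_true]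
        intro a b
        exact absurd ⟨a, b⟩ hc
      rw [e2]
      exact MeasurableSet.univ
  have h3 := (Measure.ae_ae_comm hset).1 h2
  filter_upwards [h3] with a ha
  filter_upwards [ha] with x hx
  have hdet := det (S := S) (p := fun j m => φ j x (a j) m) (γ := fun j => g j x) hne
    (fun j m m' hm => hloc j x (a j) m m' hm) (by
      intro j i hi J' hJ' ε hε
      obtain ⟨N₀, h0⟩ := hx j i hi J' hJ' ε hε
      refine ⟨N₀, fun M c d => ?_⟩
      have h5 := h0 M c d
      beta_reduce at h5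
      rw [bavg_real, Complex.norm_real, Real.norm_eq_abs] at h5
      exact h5)
  intro ε hε
  obtain ⟨N₀, h0⟩ := hdet ε hε
  exact ⟨N₀, fun M hM => h0 M hM⟩

end Pool.Agent.Y259.MC
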