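import Mathlib
import Pool.Agent.Y957.MC.Spec

/-! Fourier coefficients of bounded measurable functions on `[0, Λ]` and periodic extension. -/

set_option autoImplicit false

namespace Pool.Agent.Y259.MC

open MeasureTheory Filter Set Pool.Agent.Y957.MC

/-- the `k`-th Fourier coefficient of `G` on `[0, Λ]` -/
noncomputable def coef (Λ : ℝ) (G : ℝ → ℂ) (k : ℤ) : ℂ :=
  (1 / (Λ : ℂ)) * ∫ s in (0 : ℝ)..Λ, G s *
    Complex.exp (-((2 * Real.pi * k / Λ * s : ℝ) : ℂ) * Complex.I)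

/-- `Λ`-periodic extension of the restriction of `G` to `[0, Λ)` -/
noncomputable def per (Λ : ℝ) (G : ℝ → ℂ) (s : ℝ) : ℂ := G (Λ * Int.fract (s / Λ))

lemma cf_eq (Λ : ℝ) (F : ℝ → ℂ) (M : ℝ) (k : ℤ) :
    cf Λ F M k = coef Λ (fun s => F (M * Real.exp s)) k := rfl

lemma norm_e (x : ℝ) : ‖Complex.exp ((x : ℂ) * Complex.I)‖ = 1 :=
  Complex.norm_exp_ofReal_mul_I x

lemma norm_e' (x : ℝ) : ‖Complex.exp (-(x : ℂ) * Complex.I)‖ = 1 := by
  rw [← Complex.ofReal_neg]
  exact Complex.norm_exp_ofReal_mul_I _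

lemma bdd_int {G : ℝ → ℂ} {C : ℝ} (hG : Measurable G) (hC : ∀ s, ‖G s‖ ≤ C) (a b : ℝ) :
    IntervalIntegrable G volume a b := by
  rw [intervalIntegrable_iff]
  exact Measure.integrableOn_of_bounded (M := C) (by simp) hG.aestronglyMeasurable
    (Eventually.of_forall hC)

lemma bdd_int_real {G : ℝ → ℝ} {C : ℝ} (hG : Measurable G) (hC : ∀ s, ‖G s‖ ≤ C) (a b : ℝ) :
    IntervalIntegrable G volume a b := by
  rw [intervalIntegrable_iff]
  exact Measure.integrableOn_of_bounded (M := C) (by simp) hG.aestronglyMeasurable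
    (Eventually.of_forall hC)

lemma meas_per {G : ℝ → ℂ} (hG : Measurable G) (Λ : ℝ) : Measurable (per Λ G) := by
  unfold per
  exact hG.comp ((measurable_fract.comp (measurable_id.div_const Λ)).const_mul Λ)

lemma per_periodic {Λ : ℝ} (h : 0 < Λ) (G : ℝ → ℂ) : Function.Periodic (per Λ G) Λ := by
  intro s
  unfold per
  have : (s + Λ) / Λ = s / Λ + 1 := by field_simp
  rw [this, Int.fract_add_one]

lemma per_eq {Λ : ℝ} (h : 0 < Λ) (G : ℝ → ℂ) {s : ℝ} (h0 : 0 ≤ s) (h1 : s < Λ) :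
    per Λ G s = G s := by
  unfold per
  have : Int.fract (s / Λ) = s / Λ := by
    rw [Int.fract_eq_self]
    exact ⟨by positivity, by rwa [div_lt_one h]⟩
  rw [this]
  congr 1
  field_simp

lemma per_bdd {G : ℝ → ℂ} {C : ℝ} (hC : ∀ s, ‖G s‖ ≤ C) (Λ s : ℝ) : ‖per Λ G s‖ ≤ C := hC _

/-- integrals over an interval only see the interior -/
lemma ii_congr {a b : ℝ} (hab : a ≤ b) {f g : ℝ → ℂ} (h : ∀ x, a < x → x < b → f x = g x) :
    ∫ x in a..b, f x = ∫ x in a..b, g x := by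
  rw [intervalIntegral.integral_of_le hab, intervalIntegral.integral_of_le hab,
    integral_Ioc_eq_integral_Ioo, integral_Ioc_eq_integral_Ioo]
  exact setIntegral_congr_fun measurableSet_Ioo (fun x hx => h x hx.1 hx.2)

lemma coef_per {Λ : ℝ} (h : 0 < Λ) (G : ℝ → ℂ) (k : ℤ) : coef Λ (per Λ G) k = coef Λ G k := by
  unfold coef
  congr 1
  apply ii_congr h.le
  intro x h0 h1
  rw [per_eq h G h0.le h1]

/-- Parseval -/
theorem parseval_per {Λ : ℝ} (h : 0 < Λ) {G : ℝ → ℂ} {C : ℝ} (hG : Measurable G)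
    (hC : ∀ s, ‖G s‖ ≤ C) :
    HasSum (fun k : ℤ => ‖coef Λ G k‖ ^ 2) ((1 / Λ) * ∫ s in (0 : ℝ)..Λ, ‖G s‖ ^ 2) := by
  have hL : MemLp G 2 (volume.restrict (Ioc 0 Λ)) :=
    MemLp.of_bound hG.aestronglyMeasurable C (Eventually.of_forall hC)
  have h1 := hasSum_sq_fourierCoeffOn h hL
  have h2 : ∀ k : ℤ, fourierCoeffOn h G k = coef Λ G k := by
    intro k
    rw [fourierCoeffOn_eq_integral, coef]
    rw [sub_zero]
    rw [← intervalIntegral.integral_smul, ← intervalIntegral.integral_const_mul]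
    congr 1
    ext s
    rw [fourier_coe_apply, smul_eq_mul]
    have e : (2 * (Real.pi : ℂ) * Complex.I * ((-k : ℤ) : ℂ) * (s : ℂ) / (Λ : ℂ))
        = -((2 * Real.pi * k / Λ * s : ℝ) : ℂ) * Complex.I := by
      push_cast
      ring
    rw [e]
    rw [Complex.real_smul]
    push_cast
    ring
  simp only [h2, smul_eq_mul, sub_zero] at h1
  rw [one_div]
  exact h1

lemma e_add (a b : ℝ) : Complex.exp (-((a + b : ℝ) : ℂ) * Complex.I)
    = Complex.exp (-(a : ℂ) * Complex.I) * Complex.exp (-(b : ℂ) * Complex.I) := by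
  rw [← Complex.exp_add]
  congr 1
  push_cast
  ring

/-- coefficients of a translate -/
theorem coef_shift {Λ : ℝ} (h : 0 < Λ) {G : ℝ → ℂ} (hp : Function.Periodic G Λ) (r : ℝ) (k : ℤ) :
    coef Λ (fun s => G (s + r)) k
      = Complex.exp (((2 * Real.pi * k / Λ * r : ℝ) : ℂ) * Complex.I) * coef Λ G k := by
  unfold coef
  have h1 : ∫ s in (0 : ℝ)..Λ, G (s + r) *
        Complex.exp (-((2 * Real.pi * k / Λ * s : ℝ) : ℂ) * Complex.I)
      = ∫ s in (0 : ℝ)..Λ, (fun x => G x *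
        Complex.exp (-((2 * Real.pi * k / Λ * (x - r) : ℝ) : ℂ) * Complex.I)) (s + r) := by
    congr 1
    ext s
    simp only [add_sub_cancel_right]
  have hper : Function.Periodic (fun x => G x *
        Complex.exp (-((2 * Real.pi * k / Λ * (x - r) : ℝ) : ℂ) * Complex.I)) Λ := by
    intro x
    simp only
    rw [hp x]
    congr 1
    have e : (2 * Real.pi * k / Λ * (x + Λ - r) : ℝ)
        = 2 * Real.pi * k / Λ * (x - r) + 2 * Real.pi * k := by
      field_simp
      ring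
    rw [e, e_add]
    have e2 : Complex.exp (-((2 * Real.pi * k : ℝ) : ℂ) * Complex.I) = 1 := by
      rw [Complex.exp_eq_one_iff]
      refine ⟨-k, ?_⟩
      push_cast
      ring
    rw [e2, mul_one]
  have h2 := intervalIntegral.integral_comp_add_right (a := 0) (b := Λ) (fun x => G x *
        Complex.exp (-((2 * Real.pi * k / Λ * (x - r) : ℝ) : ℂ) * Complex.I)) r
  rw [h1, h2, zero_add, add_comm Λ r, hper.intervalIntegral_add_eq r 0, zero_add]
  have h3 : (∫ s in (0 : ℝ)..Λ, G s *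
        Complex.exp (-((2 * Real.pi * k / Λ * (s - r) : ℝ) : ℂ) * Complex.I))
      = Complex.exp (((2 * Real.pi * k / Λ * r : ℝ) : ℂ) * Complex.I) *
        ∫ s in (0 : ℝ)..Λ, G s *
          Complex.exp (-((2 * Real.pi * k / Λ * s : ℝ) : ℂ) * Complex.I) := by
    rw [← intervalIntegral.integral_const_mul]
    apply intervalIntegral.integral_congr
    intro s _
    simp only
    have e : (2 * Real.pi * k / Λ * (s - r) : ℝ)
        = 2 * Real.pi * k / Λ * s + -(2 * Real.pi * k / Λ * r) := by ring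
    rw [e, e_add]
    rw [Complex.ofReal_neg (2 * Real.pi * k / Λ * r), neg_neg]
    ring
  rw [h3]
  ring

/-- linearity -/
theorem coef_sum {Λ : ℝ} {ι : Type} (I : Finset ι) (G : ι → ℝ → ℂ) {C : ℝ}
    (hG : ∀ i, Measurable (G i)) (hC : ∀ i s, ‖G i s‖ ≤ C) (b : ι → ℂ) (k : ℤ) :
    coef Λ (fun s => ∑ i ∈ I, b i * G i s) k = ∑ i ∈ I, b i * coef Λ (G i) k := by
  unfold coef
  have h1 : ∀ s : ℝ, (∑ i ∈ I, b i * G i s) *
        Complex.exp (-((2 * Real.pi * k / Λ * s : ℝ) : ℂ) * Complex.I)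
      = ∑ i ∈ I, b i * (G i s *
        Complex.exp (-((2 * Real.pi * k / Λ * s : ℝ) : ℂ) * Complex.I)) := by
    intro s
    rw [Finset.sum_mul]
    refine Finset.sum_congr rfl (fun i _ => ?_)
    ring
  simp only [h1]
  rw [intervalIntegral.integral_finsetSum, Finset.mul_sum]
  · refine Finset.sum_congr rfl (fun i _ => ?_)
    rw [intervalIntegral.integral_const_mul]
    ring
  · intro i _
    refine (bdd_int (C := C) ?_ ?_ 0 Λ).const_mul (b i)
    · refine (hG i).mul ?_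
      fun_prop
    · intro s
      rw [norm_mul, norm_e', mul_one]
      exact hC i s

theorem coef_const_mul {Λ : ℝ} (a : ℂ) (G : ℝ → ℂ) (k : ℤ) :
    coef Λ (fun s => a * G s) k = a * coef Λ G k := by
  unfold coef
  have h3 : (∫ s in (0 : ℝ)..Λ, a * G s *
        Complex.exp (-((2 * Real.pi * k / Λ * s : ℝ) : ℂ) * Complex.I))
      = a * ∫ s in (0 : ℝ)..Λ, G s *
          Complex.exp (-((2 * Real.pi * k / Λ * s : ℝ) : ℂ) * Complex.I) := by
    rw [← intervalIntegral.integral_const_mul]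
    apply intervalIntegral.integral_congr
    intro s _
    simp only
    ring
  rw [h3]
  ring

end Pool.Agent.Y259.MC
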