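import Mathlib
import Pool.Agent.Y957.MC.Spec
import Pool.Agent.Y259.MC.Per

/-! Job MC-PAR: Parseval for one block. -/

set_option autoImplicit false

namespace Pool.Agent.Y259.MC

open MeasureTheory Filter Set Pool.Agent.Y957.MC

lemma image_exp {A : ℝ} (hA : 0 < A) :
    (fun s : ℝ => A * Real.exp s) '' Ioo 0 (Real.log 2) = Ioo A (2 * A) := by
  ext a
  constructor
  · rintro ⟨s, ⟨h0, h1⟩, rfl⟩
    have h2 : 1 < Real.exp s := Real.one_lt_exp_iff.2 h0
    have h3 : Real.exp s < 2 := by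
      rw [← Real.exp_log (by norm_num : (0 : ℝ) < 2)]
      exact Real.exp_lt_exp.2 h1
    constructor
    · show A < A * Real.exp s
      nlinarith
    · show A * Real.exp s < 2 * A
      nlinarith
  · rintro ⟨h0, h1⟩
    have ha : 0 < a := hA.trans h0
    refine ⟨Real.log (a / A), ⟨?_, ?_⟩, ?_⟩
    · apply Real.log_pos
      rwa [one_lt_div hA]
    · apply Real.log_lt_log (by positivity)
      rwa [div_lt_iff₀ hA]
    · show A * Real.exp (Real.log (a / A)) = a
      rw [Real.exp_log (by positivity)]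
      field_simp

/-- change of variables `a = A e^s` -/
lemma subst_exp {A : ℝ} (hA : 0 < A) (g : ℝ → ℝ) :
    ∫ a in A..2 * A, g a = ∫ s in Ioo 0 (Real.log 2), (A * Real.exp s) * g (A * Real.exp s) := by
  rw [intervalIntegral.integral_of_le (by linarith), integral_Ioc_eq_integral_Ioo,
    ← image_exp hA]
  rw [integral_image_eq_integral_abs_deriv_smul (f' := fun s => A * Real.exp s) measurableSet_Ioo]
  · apply setIntegral_congr_fun measurableSet_Ioo
    intro s _
    simp only [smul_eq_mul]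
    rw [abs_of_pos (by positivity)]
  · intro x _
    exact ((Real.hasDerivAt_exp x).const_mul A).hasDerivWithinAt
  · intro x _ y _ h
    have h' : A * Real.exp x = A * Real.exp y := h
    exact Real.exp_injective (mul_left_cancel₀ hA.ne' h')

theorem par : S_PAR := by
  intro Λ F B I y A U N hΛ hF hb hA hU hN hy
  have hΛ0 : 0 < Λ := by linarith
  obtain ⟨G, hG⟩ : ∃ G : ℝ → ℂ, G = fun s => F (A * U * Real.exp s) := ⟨_, rfl⟩
  have hGm : Measurable G := by
    rw [hG]
    exact hF.comp (Real.measurable_exp.const_mul _)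
  have hGb : ∀ s, ‖G s‖ ≤ 1 := by
    intro s
    rw [hG]
    exact hb _
  obtain ⟨H, hH⟩ : ∃ H : ℝ → ℂ, H = per Λ G := ⟨_, rfl⟩
  have hHm : Measurable H := hH ▸ meas_per hGm Λ
  have hHb : ∀ s, ‖H s‖ ≤ 1 := by
    intro s
    rw [hH]
    exact per_bdd hGb Λ s
  have hHp : Function.Periodic H Λ := hH ▸ per_periodic hΛ0 G
  have hc : ∀ k, cf Λ F (A * U) k = coef Λ H k := by
    intro k
    rw [cf_eq, hH, coef_per hΛ0, hG]
  have hpar := parseval_per hΛ0 hHm hHb
  have hsum : Summable (fun k : ℤ => ‖cf Λ F (A * U) k‖ ^ 2) := by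
    simp only [hc]
    exact hpar.summable
  have hle : ∑' k : ℤ, ‖cf Λ F (A * U) k‖ ^ 2 ≤ 1 := by
    simp only [hc]
    rw [hpar.tsum_eq]
    have h1 : ∫ s in (0 : ℝ)..Λ, ‖H s‖ ^ 2 ≤ ∫ s in (0 : ℝ)..Λ, (1 : ℝ) := by
      apply intervalIntegral.integral_mono_on hΛ0.le
      · exact bdd_int_real (C := 1) (hHm.norm.pow_const 2) (fun s => by
          rw [Real.norm_eq_abs, abs_of_nonneg (by positivity)]
          exact pow_le_one₀ (norm_nonneg _) (hHb s)) 0 Λ
      · exact intervalIntegrable_const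
      · intro s _
        exact pow_le_one₀ (norm_nonneg _) (hHb s)
    rw [intervalIntegral.integral_const, sub_zero, smul_eq_mul, mul_one] at h1
    rw [one_div, inv_mul_le_iff₀ hΛ0, mul_one]
    exact h1
  refine ⟨hsum, hle, ?_⟩
  -- the function `D`
  obtain ⟨D, hD⟩ : ∃ D : ℝ → ℂ, D = fun s => (1 / (N : ℂ)) *
      ∑ n ∈ I, B n * H (s + Real.log (y n)) := ⟨_, rfl⟩
  have hshm : ∀ n : ℕ, Measurable (fun s => H (s + Real.log (y n))) := fun n =>
    hHm.comp (measurable_id.add_const _)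
  have hDm : Measurable D := by
    rw [hD]
    refine Measurable.const_mul ?_ _
    refine Finset.measurable_fun_sum _ (fun n _ => ?_)
    exact (hshm n).const_mul _
  have hDb : ∀ s, ‖D s‖ ≤ ‖(1 / (N : ℂ))‖ * ∑ n ∈ I, ‖B n‖ := by
    intro s
    rw [hD]
    show ‖(1 / (N : ℂ)) * ∑ n ∈ I, B n * H (s + Real.log (y n))‖ ≤ _
    rw [norm_mul]
    refine mul_le_mul_of_nonneg_left ?_ (norm_nonneg _)
    refine (norm_sum_le _ _).trans (Finset.sum_le_sum fun n _ => ?_)
    rw [norm_mul]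
    exact mul_le_of_le_one_right (norm_nonneg _) (hHb _)
  have hDc : ∀ k, coef Λ D k = bt Λ B I y N k * coef Λ H k := by
    intro k
    rw [hD, coef_const_mul, coef_sum I (fun n s => H (s + Real.log (y n))) hshm
      (fun n s => hHb _) B k, bt, mul_assoc, Finset.sum_mul]
    congr 1
    refine Finset.sum_congr rfl (fun n _ => ?_)
    rw [coef_shift hΛ0 hHp]
    ring
  have hparD := parseval_per hΛ0 hDm hDb
  have hD2 : ∫ s in (0 : ℝ)..Λ, ‖D s‖ ^ 2
      = Λ * ∑' k : ℤ, ‖cf Λ F (A * U) k‖ ^ 2 * ‖bt Λ B I y N k‖ ^ 2 := by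
    have h1 : ∑' k : ℤ, ‖cf Λ F (A * U) k‖ ^ 2 * ‖bt Λ B I y N k‖ ^ 2
        = (1 / Λ) * ∫ s in (0 : ℝ)..Λ, ‖D s‖ ^ 2 := by
      rw [← hparD.tsum_eq]
      congr 1
      ext k
      rw [hDc, hc, norm_mul]
      ring
    rw [h1]
    field_simp
  rw [subst_exp hA]
  have hkey : ∀ s ∈ Ioo 0 (Real.log 2), (A * Real.exp s) *
      ‖(1 / (N : ℂ)) * ∑ n ∈ I, B n * F (A * Real.exp s * (U * y n))‖ ^ 2
        ≤ 2 * A * ‖D s‖ ^ 2 := by
    intro s hs
    have h1 : (1 / (N : ℂ)) * ∑ n ∈ I, B n * F (A * Real.exp s * (U * y n)) = D s := by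
      rw [hD]
      show _ = (1 / (N : ℂ)) * ∑ n ∈ I, B n * H (s + Real.log (y n))
      congr 1
      refine Finset.sum_congr rfl (fun n hn => ?_)
      congr 1
      obtain ⟨y1, y2⟩ := hy n hn
      have y0 : 0 < y n := by linarith
      have h2 : 0 ≤ s + Real.log (y n) := by
        have := Real.log_nonneg y1
        linarith [hs.1]
      have h3 : s + Real.log (y n) < Λ := by
        rw [Real.log_mul (by norm_num) y0.ne'] at y2
        linarith [hs.2]
      rw [hH, per_eq hΛ0 G h2 h3, hG]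
      show _ = F (A * U * Real.exp (s + Real.log (y n)))
      rw [Real.exp_add, Real.exp_log y0]
      congr 1
      ring
    rw [h1]
    have h4 : Real.exp s ≤ 2 := by
      rw [← Real.exp_log (by norm_num : (0 : ℝ) < 2)]
      exact Real.exp_le_exp.2 hs.2.le
    have h5 : 0 ≤ ‖D s‖ ^ 2 := by positivity
    have h6 : A * Real.exp s ≤ 2 * A := by nlinarith
    exact mul_le_mul_of_nonneg_right h6 h5
  have hDi : ∀ b : ℝ, IntegrableOn (fun s => 2 * A * ‖D s‖ ^ 2) (Ioc 0 b) := by
    intro b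
    refine Measure.integrableOn_of_bounded
      (M := 2 * A * (‖(1 / (N : ℂ))‖ * ∑ n ∈ I, ‖B n‖) ^ 2) (by simp)
      ((hDm.norm.pow_const 2).const_mul _).aestronglyMeasurable
      (Eventually.of_forall fun s => ?_)
    rw [Real.norm_eq_abs, abs_of_nonneg (by positivity)]
    have := hDb s
    gcongr
  have hlog : Real.log 2 ≤ Λ := by
    have := Real.log_two_lt_d9
    linarith
  calc ∫ s in Ioo 0 (Real.log 2), (A * Real.exp s) *
        ‖(1 / (N : ℂ)) * ∑ n ∈ I, B n * F (A * Real.exp s * (U * y n))‖ ^ 2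
      ≤ ∫ s in Ioo 0 (Real.log 2), 2 * A * ‖D s‖ ^ 2 := by
        apply integral_mono_of_nonneg
        · refine (ae_restrict_iff' measurableSet_Ioo).2 (Eventually.of_forall fun s _ => ?_)
          show 0 ≤ _
          positivity
        · exact (hDi (Real.log 2)).mono_set Ioo_subset_Ioc_self
        · exact (ae_restrict_iff' measurableSet_Ioo).2 (Eventually.of_forall hkey)
    _ ≤ ∫ s in Ioc 0 Λ, 2 * A * ‖D s‖ ^ 2 := by
        apply setIntegral_mono_set (hDi Λ)
        · exact Eventually.of_forall fun s => by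
            show 0 ≤ _
            positivity
        · exact (Ioo_subset_Ioc_self.trans (Ioc_subset_Ioc_right hlog)).eventuallyLE
    _ = 2 * A * ∫ s in (0 : ℝ)..Λ, ‖D s‖ ^ 2 := by
        rw [intervalIntegral.integral_of_le hΛ0.le, integral_const_mul]
    _ = _ := by
        rw [hD2]
        ring

end Pool.Agent.Y259.MC
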