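import Mathlib
import Pool.Agent.Y957.MC.Spec
import Pool.Agent.Y259.MC.Per

/-! Job MC-TAIL: coefficients of very high order. -/

set_option autoImplicit false

namespace Pool.Agent.Y259.MC

open MeasureTheory Filter Set Pool.Agent.Y957.MC

theorem coef_sub {Λ : ℝ} {G₁ G₂ : ℝ → ℂ} {C : ℝ} (h1 : Measurable G₁) (h2 : Measurable G₂)
    (b1 : ∀ s, ‖G₁ s‖ ≤ C) (b2 : ∀ s, ‖G₂ s‖ ≤ C) (k : ℤ) :
    coef Λ (fun s => G₁ s - G₂ s) k = coef Λ G₁ k - coef Λ G₂ k := by
  unfold coef
  rw [← mul_sub, ← intervalIntegral.integral_sub]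
  · congr 1
    apply intervalIntegral.integral_congr
    intro s _
    simp only
    ring
  · refine bdd_int (C := C) (h1.mul (by fun_prop)) (fun s => ?_) 0 Λ
    show ‖G₁ s * _‖ ≤ C
    rw [norm_mul, norm_e', mul_one]
    exact b1 s
  · refine bdd_int (C := C) (h2.mul (by fun_prop)) (fun s => ?_) 0 Λ
    show ‖G₂ s * _‖ ≤ C
    rw [norm_mul, norm_e', mul_one]
    exact b2 s

lemma norm_sub_one_sq (x : ℝ) :
    ‖Complex.exp ((x : ℂ) * Complex.I) - 1‖ ^ 2 = 2 - 2 * Real.cos x := by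
  rw [← Complex.normSq_eq_norm_sq, Complex.normSq_apply]
  simp only [Complex.sub_re, Complex.sub_im, Complex.one_re, Complex.one_im,
    Complex.exp_ofReal_mul_I_re, Complex.exp_ofReal_mul_I_im]
  nlinarith [Real.sin_sq_add_cos_sq x]

/-- the average of the weights -/
lemma avg_w {θ η : ℝ} (hη : 0 < η) (hθ : 2 / η ≤ |θ|) :
    η ≤ ∫ h in (0 : ℝ)..η, (2 - 2 * Real.cos (θ * h)) := by
  have hθ0 : 0 < |θ| := lt_of_lt_of_le (by positivity) hθ
  have hne : θ ≠ 0 := abs_pos.1 hθ0
  have h1 : ∫ h in (0 : ℝ)..η, (2 - 2 * Real.cos (θ * h)) = 2 * η - 2 * (θ⁻¹ * Real.sin (θ * η)) := by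
    rw [intervalIntegral.integral_sub intervalIntegrable_const
      (by apply Continuous.intervalIntegrable; fun_prop)]
    rw [intervalIntegral.integral_const, intervalIntegral.integral_const_mul,
      intervalIntegral.integral_comp_mul_left (fun x => Real.cos x) hne, integral_cos]
    simp only [mul_zero, Real.sin_zero, sub_zero, smul_eq_mul]
    ring
  rw [h1]
  have h2 : θ⁻¹ * Real.sin (θ * η) ≤ |θ|⁻¹ := by
    refine (le_abs_self _).trans ?_
    rw [abs_mul, abs_inv]
    exact mul_le_of_le_one_right (by positivity) (Real.abs_sin_le_one _)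
  have h3 : |θ|⁻¹ ≤ η / 2 := by
    rw [inv_le_comm₀ hθ0 (by positivity)]
    rw [inv_div]
    exact hθ
  linarith

lemma cf_bessel {Λ : ℝ} (hΛ : 0 < Λ) {F : ℝ → ℂ} (hF : Measurable F) (hb : ∀ v, ‖F v‖ ≤ 1)
    (M : ℝ) (S : Finset ℤ) : ∑ k ∈ S, ‖cf Λ F M k‖ ^ 2 ≤ 1 := by
  have hGm : Measurable (fun s => F (M * Real.exp s)) := hF.comp (Real.measurable_exp.const_mul _)
  have hpar := parseval_per hΛ hGm (fun s => hb _)
  simp only [cf_eq]
  refine (hpar.summable.sum_le_tsum S (fun k _ => by positivity)).trans ?_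
  rw [hpar.tsum_eq]
  have h1 : ∫ s in (0 : ℝ)..Λ, ‖F (M * Real.exp s)‖ ^ 2 ≤ ∫ s in (0 : ℝ)..Λ, (1 : ℝ) := by
    apply intervalIntegral.integral_mono_on hΛ.le
    · exact bdd_int_real (C := 1) (hGm.norm.pow_const 2) (fun s => by
        rw [Real.norm_eq_abs, abs_of_nonneg (by positivity)]
        exact pow_le_one₀ (norm_nonneg _) (hb _)) 0 Λ
    · exact intervalIntegrable_const
    · intro s _
      exact pow_le_one₀ (norm_nonneg _) (hb _)
  rw [intervalIntegral.integral_const, sub_zero, smul_eq_mul, mul_one] at h1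
  rw [one_div, inv_mul_le_iff₀ hΛ, mul_one]
  exact h1

/-- the mean square of the difference of the periodic extensions -/
lemma diff_sq {Λ : ℝ} (hΛ : 1 ≤ Λ) {F : ℝ → ℂ} {C M : ℝ} (hF : Measurable F)
    (hb : ∀ v, ‖F v‖ ≤ 1) (hC : 1 ≤ C) (hM : 1 ≤ M) (hmod : Mod Λ F C M) {h : ℝ} (h0 : 0 < h)
    (h1 : h ≤ 1) :
    ∫ s in (0 : ℝ)..Λ, ‖per Λ (fun s => F (M * Real.exp s)) (s + h)
      - per Λ (fun s => F (M * Real.exp s)) s‖ ^ 2 ≤ 6 * C * M * h := by
  have hΛ0 : 0 < Λ := by linarith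
  obtain ⟨G, hG⟩ : ∃ G : ℝ → ℂ, G = fun s => F (M * Real.exp s) := ⟨_, rfl⟩
  rw [← hG]
  have hGm : Measurable G := by
    rw [hG]
    exact hF.comp (Real.measurable_exp.const_mul _)
  have hGb : ∀ s, ‖G s‖ ≤ 1 := by
    intro s
    rw [hG]
    exact hb _
  have hHm : Measurable (per Λ G) := meas_per hGm Λ
  have hHb : ∀ s, ‖per Λ G s‖ ≤ 1 := fun s => per_bdd hGb Λ s
  have hDm : Measurable (fun s => per Λ G (s + h) - per Λ G s) :=
    (hHm.comp (measurable_id.add_const h)).sub hHm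
  have hDb : ∀ s, ‖per Λ G (s + h) - per Λ G s‖ ≤ 2 := by
    intro s
    refine (norm_sub_le _ _).trans ?_
    have := hHb (s + h)
    have := hHb s
    linarith
  have hsq : ∀ s, ‖per Λ G (s + h) - per Λ G s‖ ^ 2 ≤ 4 := by
    intro s
    have := hDb s
    have := norm_nonneg (per Λ G (s + h) - per Λ G s)
    nlinarith
  have hI : ∀ a b : ℝ, IntervalIntegrable (fun s => ‖per Λ G (s + h) - per Λ G s‖ ^ 2)
      volume a b := fun a b => bdd_int_real (C := 4) (hDm.norm.pow_const 2) (fun s => by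
        rw [Real.norm_eq_abs, abs_of_nonneg (by positivity)]
        exact hsq s) a b
  have hJm : Measurable (fun s => ‖G (s + h) - G s‖) :=
    ((hGm.comp (measurable_id.add_const h)).sub hGm).norm
  have hJb : ∀ s, ‖G (s + h) - G s‖ ≤ 2 := by
    intro s
    refine (norm_sub_le _ _).trans ?_
    have := hGb (s + h)
    have := hGb s
    linarith
  have hJ : ∀ a b : ℝ, IntervalIntegrable (fun s => ‖G (s + h) - G s‖) volume a b :=
    fun a b => bdd_int_real (C := 2) hJm (fun s => by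
        rw [Real.norm_eq_abs, abs_of_nonneg (norm_nonneg _)]
        exact hJb s) a b
  have hml := hmod h h0 h1
  have hml' : ∫ s in (0 : ℝ)..Λ, ‖G (s + h) - G s‖ ≤ C * M * h := by
    rw [hG]
    exact hml
  have hfirst : ∫ s in (0 : ℝ)..(Λ - h), ‖per Λ G (s + h) - per Λ G s‖ ^ 2
      ≤ 2 * ∫ s in (0 : ℝ)..Λ, ‖G (s + h) - G s‖ := by
    have e1 : ∫ s in (0 : ℝ)..(Λ - h), ‖per Λ G (s + h) - per Λ G s‖ ^ 2
        ≤ ∫ s in (0 : ℝ)..(Λ - h), 2 * ‖G (s + h) - G s‖ := by
      rw [intervalIntegral.integral_of_le (by linarith), intervalIntegral.integral_of_le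
        (by linarith), integral_Ioc_eq_integral_Ioo, integral_Ioc_eq_integral_Ioo]
      apply setIntegral_mono_on
      · exact ((hI 0 (Λ - h)).1).mono_set Ioo_subset_Ioc_self
      · exact (((hJ 0 (Λ - h)).const_mul 2).1).mono_set Ioo_subset_Ioc_self
      · exact measurableSet_Ioo
      · intro s hs
        rw [per_eq hΛ0 G hs.1.le (by linarith [hs.2]),
          per_eq hΛ0 G (by linarith [hs.1]) (by linarith [hs.2])]
        have h3 := hJb s
        have h4 := norm_nonneg (G (s + h) - G s)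
        nlinarith
    rw [intervalIntegral.integral_const_mul] at e1
    refine e1.trans ?_
    have e2 : ∫ s in (0 : ℝ)..(Λ - h), ‖G (s + h) - G s‖ ≤ ∫ s in (0 : ℝ)..Λ, ‖G (s + h) - G s‖ := by
      rw [← intervalIntegral.integral_add_adjacent_intervals (hJ 0 (Λ - h)) (hJ (Λ - h) Λ)]
      have : 0 ≤ ∫ s in (Λ - h)..Λ, ‖G (s + h) - G s‖ :=
        intervalIntegral.integral_nonneg (by linarith) (fun s _ => norm_nonneg _)
      linarith
    linarith
  have hsecond : ∫ s in (Λ - h)..Λ, ‖per Λ G (s + h) - per Λ G s‖ ^ 2 ≤ 4 * h := by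
    have e1 : ∫ s in (Λ - h)..Λ, ‖per Λ G (s + h) - per Λ G s‖ ^ 2 ≤ ∫ s in (Λ - h)..Λ, (4 : ℝ) := by
      apply intervalIntegral.integral_mono_on (by linarith) (hI _ _) intervalIntegrable_const
      intro s _
      exact hsq s
    rw [intervalIntegral.integral_const, smul_eq_mul] at e1
    linarith
  rw [← intervalIntegral.integral_add_adjacent_intervals (hI 0 (Λ - h)) (hI (Λ - h) Λ)]
  have hCM : 1 ≤ C * M := by nlinarith
  have : h ≤ C * M * h := by nlinarith
  nlinarith

theorem tail : S_TAIL := by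
  intro Λ hΛ
  refine ⟨3 + Λ, by linarith, ?_⟩
  intro F C M K hF hb hC hM hmod hK S hS
  have hΛ0 : 0 < Λ := by linarith
  have hK0 : (0 : ℝ) < K := by exact_mod_cast hK
  have hK1 : (1 : ℝ) ≤ K := by exact_mod_cast hK
  have hCM : 1 ≤ C * M := by nlinarith
  rcases lt_or_ge (K : ℝ) Λ with hlt | hge
  · refine (cf_bessel hΛ0 hF hb M S).trans ?_
    rw [le_div_iff₀ hK0, one_mul]
    nlinarith
  · -- the main case
    obtain ⟨η, hη⟩ : ∃ η, η = Λ / K := ⟨_, rfl⟩
    have hη0 : 0 < η := by rw [hη]; positivity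
    have hη1 : η ≤ 1 := by rw [hη, div_le_one hK0]; exact hge
    obtain ⟨G, hG⟩ : ∃ G : ℝ → ℂ, G = fun s => F (M * Real.exp s) := ⟨_, rfl⟩
    have hGm : Measurable G := by
      rw [hG]
      exact hF.comp (Real.measurable_exp.const_mul _)
    have hGb : ∀ s, ‖G s‖ ≤ 1 := by
      intro s
      rw [hG]
      exact hb _
    have hHm : Measurable (per Λ G) := meas_per hGm Λ
    have hHb : ∀ s, ‖per Λ G s‖ ≤ 1 := fun s => per_bdd hGb Λ s
    have hHp : Function.Periodic (per Λ G) Λ := per_periodic hΛ0 G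
    have hc : ∀ k, cf Λ F M k = coef Λ (per Λ G) k := by
      intro k
      rw [cf_eq, coef_per hΛ0, hG]
    have hE : ∀ h ∈ Ioc (0 : ℝ) η, ∑ k ∈ S, ‖cf Λ F M k‖ ^ 2 *
        (2 - 2 * Real.cos (2 * Real.pi * k / Λ * h)) ≤ 6 * C * M * h / Λ := by
      intro h hh
      have h1 : h ≤ 1 := hh.2.trans hη1
      have hDm : Measurable (fun s => per Λ G (s + h) - per Λ G s) :=
        (hHm.comp (measurable_id.add_const h)).sub hHm
      have hDb : ∀ s, ‖per Λ G (s + h) - per Λ G s‖ ≤ 2 := by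
        intro s
        refine (norm_sub_le _ _).trans ?_
        have := hHb (s + h)
        have := hHb s
        linarith
      have hpar := parseval_per hΛ0 hDm hDb
      have hcoef : ∀ k : ℤ, ‖coef Λ (fun s => per Λ G (s + h) - per Λ G s) k‖ ^ 2
          = ‖cf Λ F M k‖ ^ 2 * (2 - 2 * Real.cos (2 * Real.pi * k / Λ * h)) := by
        intro k
        have hsm : Measurable (fun s => per Λ G (s + h)) := hHm.comp (measurable_id.add_const h)
        rw [coef_sub hsm hHm (fun s => hHb _) hHb,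
          coef_shift hΛ0 hHp, ← hc, ← norm_sub_one_sq]
        rw [← sub_one_mul, norm_mul]
        ring
      have h2 := hpar.summable.sum_le_tsum S (fun k _ => by positivity)
      rw [hpar.tsum_eq] at h2
      simp only [hcoef] at h2
      refine h2.trans ?_
      have h3 := diff_sq hΛ hF hb hC hM hmod hh.1 h1
      rw [← hG] at h3
      rw [one_div, inv_mul_le_iff₀ hΛ0]
      refine h3.trans (le_of_eq ?_)
      field_simp
    -- integrate over `h`
    have hint : ∫ h in (0 : ℝ)..η, ∑ k ∈ S, ‖cf Λ F M k‖ ^ 2 *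
        (2 - 2 * Real.cos (2 * Real.pi * k / Λ * h)) ≤ ∫ h in (0 : ℝ)..η, 6 * C * M * h / Λ := by
      rw [intervalIntegral.integral_of_le hη0.le, intervalIntegral.integral_of_le hη0.le]
      apply setIntegral_mono_on
      · have : Continuous (fun h : ℝ => ∑ k ∈ S, ‖cf Λ F M k‖ ^ 2 *
          (2 - 2 * Real.cos (2 * Real.pi * k / Λ * h))) := by fun_prop
        exact (this.intervalIntegrable 0 η).1
      · have : Continuous (fun h : ℝ => 6 * C * M * h / Λ) := by fun_prop
        exact (this.intervalIntegrable 0 η).1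
      · exact measurableSet_Ioc
      · exact hE
    have hleft : η * ∑ k ∈ S, ‖cf Λ F M k‖ ^ 2 ≤ ∫ h in (0 : ℝ)..η, ∑ k ∈ S, ‖cf Λ F M k‖ ^ 2 *
        (2 - 2 * Real.cos (2 * Real.pi * k / Λ * h)) := by
      rw [intervalIntegral.integral_finsetSum]
      · rw [Finset.mul_sum]
        refine Finset.sum_le_sum (fun k hk => ?_)
        rw [intervalIntegral.integral_const_mul, mul_comm]
        refine mul_le_mul_of_nonneg_left ?_ (by positivity)
        apply avg_w hη0
        have hk1 : (K : ℝ) < |(k : ℝ)| := by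
          have := hS k hk
          exact_mod_cast this
        rw [hη, div_div_eq_mul_div, abs_div, abs_mul, abs_mul, abs_of_pos hΛ0,
          abs_of_pos Real.pi_pos, abs_of_pos (by norm_num : (0 : ℝ) < 2)]
        apply div_le_div_of_nonneg_right _ hΛ0.le
        have := Real.pi_gt_three
        nlinarith
      · intro k _
        apply Continuous.intervalIntegrable
        fun_prop
    have hright : ∫ h in (0 : ℝ)..η, 6 * C * M * h / Λ = 3 * C * M * η ^ 2 / Λ := by
      have : (fun h : ℝ => 6 * C * M * h / Λ) = fun h => (6 * C * M / Λ) * h := by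
        ext h
        ring
      rw [this, intervalIntegral.integral_const_mul, integral_id]
      ring
    rw [hright] at hint
    have h4 : η * ∑ k ∈ S, ‖cf Λ F M k‖ ^ 2 ≤ η * (3 * C * M * η / Λ) := by
      refine (hleft.trans hint).trans (le_of_eq ?_)
      ring
    have h5 := le_of_mul_le_mul_left h4 hη0
    refine h5.trans ?_
    rw [hη]
    have e : 3 * C * M * (Λ / K) / Λ = 3 * C * M / K := by
      field_simp
    rw [e]
    apply div_le_div_of_nonneg_right _ hK0.le
    nlinarith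

end Pool.Agent.Y259.MC
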